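import Pool.Agent.H649K.Comb

/-!
Analytic part: partial sums of the signed Takagi function are the linear interpolations of the
values of `Comb.lean`, and the level sets meet few dyadic intervals of odd level.
-/

set_option autoImplicit false

open Set Filter Topology MeasureTheory
open scoped ENNReal NNReal

namespace Pool.Agent.H649K

/-- Distance to the nearest integer. -/
noncomputable def phi (x : ℝ) : ℝ := |x - round x|

lemma phi_eq (x : ℝ) : phi x = min (Int.fract x) (1 - Int.fract x) := abs_sub_round_eq_min x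

lemma phi_nonneg (x : ℝ) : 0 ≤ phi x := abs_nonneg _

lemma phi_le (x : ℝ) : phi x ≤ 1 / 2 := abs_sub_round x

/-- The terms of the series. -/
noncomputable def term (n : ℕ) (x : ℝ) : ℝ := (w n ⌊(2 : ℝ) ^ n * x⌋₊ : ℝ) / 2 ^ n * phi (2 ^ n * x)

/-- The partial sums. -/
noncomputable def S (m : ℕ) (x : ℝ) : ℝ := ∑ n ∈ Finset.range m, term n x

/-- The function. -/
noncomputable def F (x : ℝ) : ℝ := ∑' n, term n x

lemma abs_w (n i : ℕ) : |(w n i : ℝ)| = 1 := by
  rcases w_pm n i with h | h <;> simp [h]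

lemma abs_term_le (n : ℕ) (x : ℝ) : |term n x| ≤ (1 / 2) ^ n * (1 / 2) := by
  unfold term
  rw [abs_mul, abs_div, abs_w, abs_of_nonneg (phi_nonneg _), abs_of_pos (by positivity : (0:ℝ) < 2 ^ n)]
  have : (1 : ℝ) / 2 ^ n = (1 / 2) ^ n := by rw [one_div_pow]
  rw [this]
  exact mul_le_mul_of_nonneg_left (phi_le _) (by positivity)

lemma summable_bound : Summable (fun n : ℕ => ((1 : ℝ) / 2) ^ n * (1 / 2)) :=
  (summable_geometric_of_lt_one (by norm_num) (by norm_num)).mul_right _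

lemma summable_term (x : ℝ) : Summable (fun n => term n x) :=
  Summable.of_norm_bounded summable_bound (fun n => by
    rw [Real.norm_eq_abs]; exact abs_term_le n x)

lemma abs_F_sub (m : ℕ) (x : ℝ) : |F x - S m x| ≤ (1 / 2) ^ m := by
  have h1 : S m x + ∑' n, term (n + m) x = F x := (summable_term x).sum_add_tsum_nat_add m
  have h2 : F x - S m x = ∑' n, term (n + m) x := by linarith
  rw [h2, ← Real.norm_eq_abs]
  have hs : HasSum (fun n : ℕ => ((1 : ℝ) / 2) ^ (n + m) * (1 / 2)) ((1 / 2) ^ m) := by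
    have hg : HasSum (fun n : ℕ => ((1 : ℝ) / 2) ^ n) 2 := hasSum_geometric_two
    have h3 := hg.mul_right ((1 / 2) ^ m * (1 / 2))
    have e1 : (fun n : ℕ => ((1 : ℝ) / 2) ^ (n + m) * (1 / 2))
        = fun n : ℕ => (1 / 2) ^ n * ((1 / 2) ^ m * (1 / 2)) := by
      funext n; ring
    have e2 : (2 : ℝ) * ((1 / 2) ^ m * (1 / 2)) = (1 / 2) ^ m := by ring
    rw [e2] at h3
    rw [e1]
    exact h3
  refine tsum_of_norm_bounded hs (fun n => ?_)
  rw [Real.norm_eq_abs]
  exact abs_term_le (n + m) x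

/-- Interpolation. -/
lemma interp (m : ℕ) : ∀ x : ℝ, 0 ≤ x → ∀ j : ℕ, (j : ℝ) ≤ 2 ^ m * x → 2 ^ m * x < j + 1 →
    2 ^ m * S m x = v m j + (2 ^ m * x - j) * (v m (j + 1) - v m j) := by
  induction m with
  | zero =>
    intro x hx j _ _
    simp [S, v_zero]
  | succ m ih =>
    intro x hx i hi1 hi2
    obtain ⟨k, hk⟩ := Nat.even_or_odd' i
    have hS : S (m + 1) x = S m x + term m x := by
      unfold S; rw [Finset.sum_range_succ]
    have hp : (2 : ℝ) ^ (m + 1) * x = 2 * (2 ^ m * x) := by rw [pow_succ]; ring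
    rw [hp] at hi1 hi2 ⊢
    have hkk : (k : ℝ) ≤ 2 ^ m * x ∧ 2 ^ m * x < k + 1 := by
      rcases hk with rfl | rfl
      · push_cast at hi1 hi2
        constructor <;> linarith
      · push_cast at hi1 hi2
        constructor <;> linarith
    have hfl : ⌊(2 : ℝ) ^ m * x⌋₊ = k := by
      rw [Nat.floor_eq_iff (by positivity)]
      exact hkk
    have hfr : Int.fract ((2 : ℝ) ^ m * x) = 2 ^ m * x - k := by
      rw [Int.fract_eq_iff]
      refine ⟨by linarith [hkk.1], by linarith [hkk.2], (k : ℤ), ?_⟩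
      push_cast
      ring
    have hterm : 2 ^ m * term m x = w m k * min (2 ^ m * x - k) (1 - (2 ^ m * x - k)) := by
      unfold term
      rw [hfl, phi_eq, hfr]
      have : (2 : ℝ) ^ m ≠ 0 := by positivity
      field_simp
    have hprev := ih x hx k hkk.1 hkk.2
    have hmain : (2 : ℝ) ^ (m + 1) * S (m + 1) x
        = 2 * (v m k + (2 ^ m * x - k) * (v m (k + 1) - v m k))
          + 2 * (w m k * min (2 ^ m * x - k) (1 - (2 ^ m * x - k))) := by
      rw [hS, ← hprev, ← hterm, pow_succ]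
      ring
    rw [hmain]
    rcases hk with rfl | rfl
    · push_cast at hi1 hi2
      rw [min_eq_left (by linarith), v_even, v_odd]
      push_cast
      ring
    · push_cast at hi1 hi2
      rw [min_eq_right (by linarith), v_odd, v_even']
      push_cast
      ring

/-- The end values on a dyadic interval that meets the level set are close to the level. -/
lemma close (m : ℕ) (x : ℝ) (hx : 0 ≤ x) (j : ℕ) (h1 : (j : ℝ) ≤ 2 ^ m * x)
    (h2 : 2 ^ m * x < j + 1) :
    |2 ^ m * F x - v m j| ≤ m + 1 ∧ |2 ^ m * F x - v m (j + 1)| ≤ m + 1 := by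
  have hi := interp m x hx j h1 h2
  have hF := abs_F_sub m x
  have hs : |((v m (j + 1) : ℤ) : ℝ) - v m j| ≤ m := by
    have := slope_le m j
    have h' : ((|v m (j + 1) - v m j| : ℤ) : ℝ) ≤ ((m : ℤ) : ℝ) := by exact_mod_cast this
    push_cast at h'
    exact h'
  have hE : |2 ^ m * F x - 2 ^ m * S m x| ≤ 1 := by
    rw [← mul_sub, abs_mul, abs_of_pos (by positivity : (0:ℝ) < 2 ^ m)]
    calc (2 : ℝ) ^ m * |F x - S m x| ≤ 2 ^ m * (1 / 2) ^ m :=
          mul_le_mul_of_nonneg_left hF (by positivity)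
      _ = 1 := by rw [← mul_pow]; norm_num
  set t : ℝ := 2 ^ m * x - j with ht
  have ht0 : 0 ≤ t := by linarith
  have ht1 : t ≤ 1 := by linarith
  set D : ℝ := (v m (j + 1) : ℝ) - v m j with hD
  have e1 : 2 ^ m * F x - v m j = (2 ^ m * F x - 2 ^ m * S m x) + t * D := by rw [hi]; ring
  have e2 : 2 ^ m * F x - v m (j + 1) = (2 ^ m * F x - 2 ^ m * S m x) + (-((1 - t) * D)) := by
    rw [hi, hD]; ring
  constructor
  · rw [e1]
    have : |t * D| ≤ m := by
      rw [abs_mul, abs_of_nonneg ht0]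
      calc t * |D| ≤ 1 * |D| := mul_le_mul_of_nonneg_right ht1 (abs_nonneg _)
        _ ≤ m := by rw [one_mul]; exact hs
    linarith [abs_add_le (2 ^ m * F x - 2 ^ m * S m x) (t * D)]
  · rw [e2]
    have : |-((1 - t) * D)| ≤ m := by
      rw [abs_neg, abs_mul, abs_of_nonneg (by linarith : (0:ℝ) ≤ 1 - t)]
      calc (1 - t) * |D| ≤ 1 * |D| := mul_le_mul_of_nonneg_right (by linarith) (abs_nonneg _)
        _ ≤ m := by rw [one_mul]; exact hs
    linarith [abs_add_le (2 ^ m * F x - 2 ^ m * S m x) (-((1 - t) * D))]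

/-- The half-open dyadic interval. -/
def I (m j : ℕ) : Set ℝ := Ico ((j : ℝ) / 2 ^ m) ((j + 1) / 2 ^ m)

lemma mem_I {m j : ℕ} {x : ℝ} : x ∈ I m j ↔ (j : ℝ) ≤ 2 ^ m * x ∧ 2 ^ m * x < j + 1 := by
  have h : (0 : ℝ) < 2 ^ m := by positivity
  unfold I
  rw [mem_Ico, div_le_iff₀ h, lt_div_iff₀ h, mul_comm x]

/-- The dyadic intervals that meet a level set. -/
noncomputable def J (m : ℕ) (y : ℝ) : Finset ℕ :=
  open Classical in (Finset.range (2 ^ m)).filter (fun j => ∃ x ∈ I m j, F x = y)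

lemma card_J {m : ℕ} (hm : OddInv m) (y : ℝ) : (J m y).card ≤ (2 * m + 4) ^ 2 := by
  classical
  set h : ℝ := 2 ^ m * y with hh
  set B : Finset ℤ := Finset.Icc (⌊h⌋ - m - 1) (⌊h⌋ + m + 2) with hB
  have hcard : (B ×ˢ B).card = (2 * m + 4) ^ 2 := by
    rw [Finset.card_product, hB, Int.card_Icc, ← sq]
    congr 1
    omega
  rw [← hcard]
  refine Finset.card_le_card_of_injOn (fun j => (v m j, v m (j + 1))) ?_ ?_
  · intro j hj
    have hj' : j ∈ J m y := hj
    unfold J at hj'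
    rw [Finset.mem_filter] at hj'
    obtain ⟨hj1, x, hx, hxy⟩ := hj'
    have hx' := mem_I.1 hx
    have hx0 : 0 ≤ x := by
      have h2 : (0 : ℝ) < 2 ^ m := by positivity
      have : (0 : ℝ) ≤ 2 ^ m * x := le_trans (Nat.cast_nonneg j) hx'.1
      exact nonneg_of_mul_nonneg_right this h2
    obtain ⟨c1, c2⟩ := close m x hx0 j hx'.1 hx'.2
    rw [hxy, ← hh] at c1 c2
    have key : ∀ a : ℤ, |h - a| ≤ m + 1 → a ∈ B := by
      intro a ha
      rw [abs_le] at ha
      have f1 := Int.floor_le h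
      have f2 := Int.lt_floor_add_one h
      rw [hB, Finset.mem_Icc]
      constructor
      · have : ((⌊h⌋ - m - 1 : ℤ) : ℝ) ≤ (a : ℝ) := by push_cast; linarith [ha.2]
        exact_mod_cast this
      · have : (a : ℝ) ≤ ((⌊h⌋ + m + 2 : ℤ) : ℝ) := by push_cast; linarith [ha.1]
        exact_mod_cast this
    show (v m j, v m (j + 1)) ∈ ((B ×ˢ B : Finset (ℤ × ℤ)) : Set (ℤ × ℤ))
    rw [Finset.mem_coe, Finset.mem_product]
    exact ⟨key _ c1, key _ c2⟩
  · intro i hi j hj hij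
    have hi' : i ∈ J m y := hi
    have hj' : j ∈ J m y := hj
    unfold J at hi' hj'
    rw [Finset.mem_filter, Finset.mem_range] at hi' hj'
    simp only [Prod.mk.injEq] at hij
    exact hm.h2 i hi'.1 j hj'.1 hij.1 hij.2

lemma level_subset (m : ℕ) (y : ℝ) :
    {x : ℝ | x ∈ Ico (0 : ℝ) 1 ∧ F x = y} ⊆ ⋃ j ∈ J m y, I m j := by
  classical
  intro x hx
  obtain ⟨⟨hx0, hx1⟩, hxy⟩ := hx
  have h2 : (0 : ℝ) < 2 ^ m := by positivity
  have hI : x ∈ I m ⌊(2 : ℝ) ^ m * x⌋₊ := by
    rw [mem_I]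
    exact ⟨Nat.floor_le (by positivity), Nat.lt_floor_add_one _⟩
  have hlt : ⌊(2 : ℝ) ^ m * x⌋₊ < 2 ^ m := by
    rw [Nat.floor_lt (by positivity)]
    push_cast
    nlinarith
  rw [mem_iUnion₂]
  refine ⟨⌊(2 : ℝ) ^ m * x⌋₊, ?_, hI⟩
  unfold J
  rw [Finset.mem_filter, Finset.mem_range]
  exact ⟨hlt, x, hI, hxy⟩

end Pool.Agent.H649K
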