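import Mathlib

/-!
Combinatorial part: an explicit choice of signs for a signed Takagi function such that, at odd
levels, the dyadic intervals have pairwise different pairs of end values.
-/

set_option autoImplicit false

namespace Pool.Agent.H649K

/-- Values (multiplied by the current power of two) at the next level. -/
def nxt (v w : ℕ → ℤ) (i : ℕ) : ℤ :=
  if i % 2 = 0 then 2 * v (i / 2) else v (i / 2) + v (i / 2 + 1) + w (i / 2)

/-- The rule that chooses the sign on an interval with end values `a`, `b`, where `p` is the sign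
on the parent interval and `i` the index of the interval. -/
def rule (a b p : ℤ) (i : ℕ) : ℤ :=
  if (a + b) % 8 = 1 ∨ (a + b) % 8 = 3 ∨ (a + b) % 8 = 6 then 1
  else if (a + b) % 8 = 5 ∨ (a + b) % 8 = 7 ∨ (a + b) % 8 = 2 then -1
  else if a % 4 = 0 then p
  else if i % 2 = 0 then 1 else -1

/-- Values and signs at every level. -/
def st : ℕ → (ℕ → ℤ) × (ℕ → ℤ)
  | 0 => (fun _ => 0, fun _ => 1)
  | m + 1 => (nxt (st m).1 (st m).2,
      fun i => rule (nxt (st m).1 (st m).2 i) (nxt (st m).1 (st m).2 (i + 1)) ((st m).2 (i / 2)) i)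

/-- Values at level `m`. -/
def v (m : ℕ) : ℕ → ℤ := (st m).1

/-- Signs at level `m`. -/
def w (m : ℕ) : ℕ → ℤ := (st m).2

lemma v_zero (j : ℕ) : v 0 j = 0 := rfl

lemma w_zero (j : ℕ) : w 0 j = 1 := rfl

lemma v_even (m j : ℕ) : v (m + 1) (2 * j) = 2 * v m j := by
  show nxt (st m).1 (st m).2 (2 * j) = _
  have h1 : (2 * j) % 2 = 0 := by omega
  have h2 : (2 * j) / 2 = j := by omega
  simp [nxt, h1, h2, v]

lemma v_odd (m j : ℕ) : v (m + 1) (2 * j + 1) = v m j + v m (j + 1) + w m j := by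
  show nxt (st m).1 (st m).2 (2 * j + 1) = _
  have h1 : ¬ (2 * j + 1) % 2 = 0 := by omega
  have h2 : (2 * j + 1) / 2 = j := by omega
  simp only [nxt, h1, h2, v, w, if_false]

lemma v_even' (m j : ℕ) : v (m + 1) (2 * j + 1 + 1) = 2 * v m (j + 1) := by
  have : 2 * j + 1 + 1 = 2 * (j + 1) := by ring
  rw [this, v_even]

lemma w_succ (m i : ℕ) :
    w (m + 1) i = rule (v (m + 1) i) (v (m + 1) (i + 1)) (w m (i / 2)) i := rfl

lemma w_pm (m i : ℕ) : w m i = 1 ∨ w m i = -1 := by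
  induction m generalizing i with
  | zero => left; rfl
  | succ m ih =>
    rw [w_succ]
    unfold rule
    split_ifs
    · left; rfl
    · right; rfl
    · exact ih _
    · left; rfl
    · right; rfl

/-- The slopes at level `m` are at most `m`. -/
lemma slope_le (m j : ℕ) : |v m (j + 1) - v m j| ≤ m := by
  induction m generalizing j with
  | zero => simp [v_zero]
  | succ m ih =>
    obtain ⟨k, hk⟩ := Nat.even_or_odd' j
    have hw := w_pm m k
    have h := ih k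
    rw [abs_le] at h ⊢
    push_cast
    rcases hk with rfl | rfl
    · rw [v_odd, v_even]
      rcases hw with hw | hw <;> rw [hw] <;> constructor <;> linarith [h.1, h.2]
    · rw [v_odd, v_even']
      rcases hw with hw | hw <;> rw [hw] <;> constructor <;> linarith [h.1, h.2]

/-- The invariant at odd levels. -/
structure OddInv (m : ℕ) : Prop where
  h1 : ∀ j < 2 ^ m, (v m j % 4 = 0 ∧ v m (j + 1) % 2 = 1) ∨ (v m j % 2 = 1 ∧ v m (j + 1) % 4 = 0)
  h2 : ∀ i < 2 ^ m, ∀ j < 2 ^ m, v m i = v m j → v m (i + 1) = v m (j + 1) → i = j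

/-- The invariant at even levels. -/
structure EvInv (m : ℕ) : Prop where
  h1 : ∀ j < 2 ^ m, v m j % 2 = 0 ∧ v m (j + 1) % 2 = 0 ∧ (v m j + v m (j + 1)) % 8 ≠ 0
  h2 : ∀ i < 2 ^ m, ∀ j < 2 ^ m, v m i = v m j → v m (i + 1) = v m (j + 1) → w m i = w m j → i = j

/-- Values of the sign for odd sums. -/
lemma w_of_odd (m i : ℕ) (h : (v (m + 1) i + v (m + 1) (i + 1)) % 2 = 1) :
    ((v (m + 1) i + v (m + 1) (i + 1)) % 8 = 1 ∧ w (m + 1) i = 1) ∨
    ((v (m + 1) i + v (m + 1) (i + 1)) % 8 = 3 ∧ w (m + 1) i = 1) ∨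
    ((v (m + 1) i + v (m + 1) (i + 1)) % 8 = 5 ∧ w (m + 1) i = -1) ∨
    ((v (m + 1) i + v (m + 1) (i + 1)) % 8 = 7 ∧ w (m + 1) i = -1) := by
  rw [w_succ]
  unfold rule
  have h8 : (v (m + 1) i + v (m + 1) (i + 1)) % 8 = 1 ∨ (v (m + 1) i + v (m + 1) (i + 1)) % 8 = 3 ∨
    (v (m + 1) i + v (m + 1) (i + 1)) % 8 = 5 ∨ (v (m + 1) i + v (m + 1) (i + 1)) % 8 = 7 := by
    omega
  rcases h8 with h | h | h | h <;> simp [h]

/-- Values of the sign for even sums. -/
lemma w_of_even (m i : ℕ) (h : (v (m + 1) i + v (m + 1) (i + 1)) % 2 = 0)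
    (h0 : (v (m + 1) i + v (m + 1) (i + 1)) % 8 ≠ 0) :
    ((v (m + 1) i + v (m + 1) (i + 1)) % 8 = 2 ∧ w (m + 1) i = -1) ∨
    ((v (m + 1) i + v (m + 1) (i + 1)) % 8 = 6 ∧ w (m + 1) i = 1) ∨
    ((v (m + 1) i + v (m + 1) (i + 1)) % 8 = 4 ∧
      w (m + 1) i = if v (m + 1) i % 4 = 0 then w m (i / 2) else if i % 2 = 0 then 1 else -1) := by
  rw [w_succ]
  unfold rule
  have h8 : (v (m + 1) i + v (m + 1) (i + 1)) % 8 = 2 ∨ (v (m + 1) i + v (m + 1) (i + 1)) % 8 = 6 ∨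
    (v (m + 1) i + v (m + 1) (i + 1)) % 8 = 4 := by
    omega
  rcases h8 with h | h | h <;> simp [h]

lemma odd_of_ev {m : ℕ} (hm : EvInv (m + 1)) : OddInv (m + 1 + 1) := by
  have hlt : ∀ k, 2 * k < 2 ^ (m + 1 + 1) → k < 2 ^ (m + 1) := by
    intro k hk
    rw [pow_succ] at hk
    omega
  refine ⟨?_, ?_⟩
  · intro j hj
    obtain ⟨k, hk⟩ := Nat.even_or_odd' j
    have hk' : k < 2 ^ (m + 1) := hlt k (by omega)
    obtain ⟨e1, e2, e3⟩ := hm.h1 k hk'
    have hw := w_pm (m + 1) k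
    rcases hk with rfl | rfl
    · left
      rw [v_odd, v_even]
      constructor
      · omega
      · rcases hw with hw | hw <;> rw [hw] <;> omega
    · right
      rw [v_odd, v_even']
      constructor
      · rcases hw with hw | hw <;> rw [hw] <;> omega
      · omega
  · intro i hi j hj hij hij'
    obtain ⟨k, hk⟩ := Nat.even_or_odd' i
    obtain ⟨l, hl⟩ := Nat.even_or_odd' j
    have hk' : k < 2 ^ (m + 1) := hlt k (by omega)
    have hl' : l < 2 ^ (m + 1) := hlt l (by omega)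
    obtain ⟨a1, a2, a3⟩ := hm.h1 k hk'
    obtain ⟨b1, b2, b3⟩ := hm.h1 l hl'
    have hwk := w_pm (m + 1) k
    have hwl := w_pm (m + 1) l
    have ck := w_of_even m k (by omega) a3
    have cl := w_of_even m l (by omega) b3
    rcases hk with rfl | rfl <;> rcases hl with rfl | rfl
    · rw [v_even, v_even] at hij
      rw [v_odd, v_odd] at hij'
      have hw : w (m + 1) k = w (m + 1) l := by
        rcases ck with ⟨c1, c2⟩ | ⟨c1, c2⟩ | ⟨c1, c2⟩ <;>
          rcases cl with ⟨d1, d2⟩ | ⟨d1, d2⟩ | ⟨d1, d2⟩ <;>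
          rcases hwk with hwk | hwk <;> rcases hwl with hwl | hwl <;> omega
      have := hm.h2 k hk' l hl' (by omega) (by omega) hw
      omega
    · exfalso
      rw [v_even, v_odd] at hij
      rcases hwl with hwl | hwl <;> rw [hwl] at hij <;> omega
    · exfalso
      rw [v_even, v_odd] at hij
      rcases hwk with hwk | hwk <;> rw [hwk] at hij <;> omega
    · rw [v_odd, v_odd] at hij
      rw [v_even', v_even'] at hij'
      have hw : w (m + 1) k = w (m + 1) l := by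
        rcases ck with ⟨c1, c2⟩ | ⟨c1, c2⟩ | ⟨c1, c2⟩ <;>
          rcases cl with ⟨d1, d2⟩ | ⟨d1, d2⟩ | ⟨d1, d2⟩ <;>
          rcases hwk with hwk | hwk <;> rcases hwl with hwl | hwl <;> omega
      have := hm.h2 k hk' l hl' (by omega) (by omega) hw
      omega

lemma ev_of_odd {m : ℕ} (hm : OddInv (m + 1)) : EvInv (m + 1 + 1) := by
  have hlt : ∀ k, 2 * k < 2 ^ (m + 1 + 1) → k < 2 ^ (m + 1) := by
    intro k hk
    rw [pow_succ] at hk
    omega
  have hfirst : ∀ j < 2 ^ (m + 1 + 1), v (m + 1 + 1) j % 2 = 0 ∧ v (m + 1 + 1) (j + 1) % 2 = 0 ∧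
      (v (m + 1 + 1) j + v (m + 1 + 1) (j + 1)) % 8 ≠ 0 := by
    intro j hj
    obtain ⟨k, hk⟩ := Nat.even_or_odd' j
    have hk' : k < 2 ^ (m + 1) := hlt k (by omega)
    have e := hm.h1 k hk'
    have c := w_of_odd m k (by omega)
    rcases hk with rfl | rfl
    · rw [v_odd, v_even]
      rcases c with ⟨c1, c2⟩ | ⟨c1, c2⟩ | ⟨c1, c2⟩ | ⟨c1, c2⟩ <;> rw [c2] <;>
        rcases e with e | e <;> refine ⟨?_, ?_, ?_⟩ <;> omega
    · rw [v_odd, v_even']
      rcases c with ⟨c1, c2⟩ | ⟨c1, c2⟩ | ⟨c1, c2⟩ | ⟨c1, c2⟩ <;> rw [c2] <;>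
        rcases e with e | e <;> refine ⟨?_, ?_, ?_⟩ <;> omega
  refine ⟨hfirst, ?_⟩
  intro i hi j hj hij hij' hww
  have fi := hfirst i hi
  have fj := hfirst j hj
  have wi := w_of_even (m + 1) i (by omega) fi.2.2
  have wj := w_of_even (m + 1) j (by omega) fj.2.2
  obtain ⟨k, hk⟩ := Nat.even_or_odd' i
  obtain ⟨l, hl⟩ := Nat.even_or_odd' j
  have hk' : k < 2 ^ (m + 1) := hlt k (by omega)
  have hl' : l < 2 ^ (m + 1) := hlt l (by omega)
  have e := hm.h1 k hk'
  have g := hm.h1 l hl'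
  have c := w_of_odd m k (by omega)
  have d := w_of_odd m l (by omega)
  rcases hk with rfl | rfl <;> rcases hl with rfl | rfl
  · -- both left
    have hi2 : 2 * k / 2 = k := by omega
    have hj2 : 2 * l / 2 = l := by omega
    rw [hi2] at wi
    rw [hj2] at wj
    rw [v_even, v_even] at hij
    rw [v_odd, v_odd] at hij'
    rw [v_even, v_odd] at wi wj
    have hw : w (m + 1) k = w (m + 1) l := by
      by_cases h4 : 2 * v (m + 1) k % 4 = 0
      · have h4' : 2 * v (m + 1) l % 4 = 0 := by omega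
        rw [if_pos h4] at wi
        rw [if_pos h4'] at wj
        rcases c with ⟨c1, c2⟩ | ⟨c1, c2⟩ | ⟨c1, c2⟩ | ⟨c1, c2⟩ <;>
          rcases d with ⟨d1, d2⟩ | ⟨d1, d2⟩ | ⟨d1, d2⟩ | ⟨d1, d2⟩ <;> omega
      · rcases c with ⟨c1, c2⟩ | ⟨c1, c2⟩ | ⟨c1, c2⟩ | ⟨c1, c2⟩ <;>
          rcases d with ⟨d1, d2⟩ | ⟨d1, d2⟩ | ⟨d1, d2⟩ | ⟨d1, d2⟩ <;> omega
    have := hm.h2 k hk' l hl' (by omega) (by omega)
    omega
  · -- left and right
    exfalso
    have hi2 : 2 * k / 2 = k := by omega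
    have hj2 : (2 * l + 1) / 2 = l := by omega
    have hi3 : (2 * k) % 2 = 0 := by omega
    have hj3 : ¬ (2 * l + 1) % 2 = 0 := by omega
    rw [hi2, if_pos hi3] at wi
    rw [hj2, if_neg hj3] at wj
    rw [v_even, v_odd] at hij
    rw [v_odd, v_even'] at hij'
    rw [v_even, v_odd] at wi
    rw [v_odd, v_even'] at wj
    have h4 : ¬ 2 * v (m + 1) k % 4 = 0 := by
      rcases d with ⟨d1, d2⟩ | ⟨d1, d2⟩ | ⟨d1, d2⟩ | ⟨d1, d2⟩ <;> omega
    have h4' : ¬ (v (m + 1) l + v (m + 1) (l + 1) + w (m + 1) l) % 4 = 0 := by omega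
    rw [if_neg h4] at wi
    rw [if_neg h4'] at wj
    rcases c with ⟨c1, c2⟩ | ⟨c1, c2⟩ | ⟨c1, c2⟩ | ⟨c1, c2⟩ <;>
      rcases d with ⟨d1, d2⟩ | ⟨d1, d2⟩ | ⟨d1, d2⟩ | ⟨d1, d2⟩ <;> omega
  · -- right and left
    exfalso
    have hi2 : (2 * k + 1) / 2 = k := by omega
    have hj2 : (2 * l) / 2 = l := by omega
    have hi3 : ¬ (2 * k + 1) % 2 = 0 := by omega
    have hj3 : (2 * l) % 2 = 0 := by omega
    rw [hi2, if_neg hi3] at wi
    rw [hj2, if_pos hj3] at wj
    rw [v_even, v_odd] at hij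
    rw [v_odd, v_even'] at hij'
    rw [v_even, v_odd] at wj
    rw [v_odd, v_even'] at wi
    have h4 : ¬ 2 * v (m + 1) l % 4 = 0 := by
      rcases c with ⟨d1, d2⟩ | ⟨d1, d2⟩ | ⟨d1, d2⟩ | ⟨d1, d2⟩ <;> omega
    have h4' : ¬ (v (m + 1) k + v (m + 1) (k + 1) + w (m + 1) k) % 4 = 0 := by omega
    rw [if_neg h4] at wj
    rw [if_neg h4'] at wi
    rcases c with ⟨c1, c2⟩ | ⟨c1, c2⟩ | ⟨c1, c2⟩ | ⟨c1, c2⟩ <;>
      rcases d with ⟨d1, d2⟩ | ⟨d1, d2⟩ | ⟨d1, d2⟩ | ⟨d1, d2⟩ <;> omega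
  · -- both right
    have hi2 : (2 * k + 1) / 2 = k := by omega
    have hj2 : (2 * l + 1) / 2 = l := by omega
    rw [hi2] at wi
    rw [hj2] at wj
    rw [v_odd, v_odd] at hij
    rw [v_even', v_even'] at hij'
    rw [v_odd, v_even'] at wi wj
    have hw : w (m + 1) k = w (m + 1) l := by
      by_cases h4 : (v (m + 1) k + v (m + 1) (k + 1) + w (m + 1) k) % 4 = 0
      · have h4' : (v (m + 1) l + v (m + 1) (l + 1) + w (m + 1) l) % 4 = 0 := by omega
        rw [if_pos h4] at wi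
        rw [if_pos h4'] at wj
        rcases c with ⟨c1, c2⟩ | ⟨c1, c2⟩ | ⟨c1, c2⟩ | ⟨c1, c2⟩ <;>
          rcases d with ⟨d1, d2⟩ | ⟨d1, d2⟩ | ⟨d1, d2⟩ | ⟨d1, d2⟩ <;> omega
      · rcases c with ⟨c1, c2⟩ | ⟨c1, c2⟩ | ⟨c1, c2⟩ | ⟨c1, c2⟩ <;>
          rcases d with ⟨d1, d2⟩ | ⟨d1, d2⟩ | ⟨d1, d2⟩ | ⟨d1, d2⟩ <;> omega
    have := hm.h2 k hk' l hl' (by omega) (by omega)
    omega

lemma odd_one : OddInv 1 := by
  have h0 : v 1 0 = 0 := by
    have := v_even 0 0
    simpa [v_zero] using this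
  have h1 : v 1 1 = 1 := by
    have := v_odd 0 0
    simpa [v_zero, w_zero] using this
  have h2 : v 1 2 = 0 := by
    have := v_even 0 1
    simpa [v_zero] using this
  refine ⟨?_, ?_⟩
  · intro j hj
    have : j = 0 ∨ j = 1 := by
      have : j < 2 := by simpa using hj
      omega
    rcases this with rfl | rfl
    · left; simp [h0, h1]
    · right; simp [h1, h2]
  · intro i hi j hj h _
    have hi' : i = 0 ∨ i = 1 := by
      have : i < 2 := by simpa using hi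
      omega
    have hj' : j = 0 ∨ j = 1 := by
      have : j < 2 := by simpa using hj
      omega
    rcases hi' with rfl | rfl <;> rcases hj' with rfl | rfl <;> simp_all

/-- At odd levels the pairs of end values are pairwise different. -/
theorem odd_all (k : ℕ) : OddInv (2 * k + 1) := by
  induction k with
  | zero => exact odd_one
  | succ k ih =>
    have h1 : EvInv (2 * k + 2) := ev_of_odd ih
    have h2 : OddInv (2 * k + 3) := odd_of_ev h1
    exact h2

end Pool.Agent.H649K
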