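import Pool.Agent.H649K.Ana

/-!
Hausdorff dimension of the level sets.
-/

set_option autoImplicit false

open Set Filter Topology MeasureTheory
open scoped ENNReal NNReal

namespace Pool.Agent.H649K

lemma ediam_I_le (m j : ℕ) : Metric.ediam (I m j) ≤ ENNReal.ofReal ((1 / 2) ^ m) := by
  refine Metric.ediam_le fun x hx y hy => ?_
  rw [edist_dist]
  refine ENNReal.ofReal_le_ofReal ?_
  unfold I at hx hy
  rw [mem_Ico] at hx hy
  have h : ((j : ℝ) + 1) / 2 ^ m = j / 2 ^ m + (1 / 2) ^ m := by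
    rw [one_div_pow]; ring
  rw [h] at hx hy
  rw [Real.dist_eq, abs_le]
  constructor <;> linarith [hx.1, hx.2, hy.1, hy.2]

lemma tendsto_aux {r : ℝ} (h0 : 0 ≤ r) (h1 : r < 1) :
    Tendsto (fun k : ℕ => ((2 * ((2 * k + 1 : ℕ) : ℝ) + 4) ^ 2) * r ^ (2 * k + 1)) atTop (𝓝 0) := by
  have h2 : Tendsto (fun n : ℕ => (n : ℝ) ^ 2 * r ^ n) atTop (𝓝 0) :=
    tendsto_pow_const_mul_const_pow_of_abs_lt_one 2 (by rw [abs_of_nonneg h0]; exact h1)
  have h3 : Tendsto (fun k : ℕ => 2 * k + 1) atTop atTop :=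
    tendsto_atTop_mono (fun k => by simp only [id]; omega) tendsto_id
  have h4 := (h2.comp h3).const_mul 36
  rw [mul_zero] at h4
  refine squeeze_zero (fun k => by positivity) (fun k => ?_) h4
  simp only [Function.comp]
  rw [← mul_assoc]
  refine mul_le_mul_of_nonneg_right ?_ (by positivity)
  have h5 : (1 : ℝ) ≤ ((2 * k + 1 : ℕ) : ℝ) := by
    exact_mod_cast (by omega : 1 ≤ 2 * k + 1)
  nlinarith

lemma haus_zero (y : ℝ) {d : ℝ} (hd : 0 < d) :
    μH[d] {x : ℝ | x ∈ Ico (0 : ℝ) 1 ∧ F x = y} = 0 := by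
  have h0 : Tendsto (fun k : ℕ => ENNReal.ofReal (((1 : ℝ) / 2) ^ (2 * k + 1))) atTop (𝓝 0) := by
    have h1 : Tendsto (fun n : ℕ => ((1 : ℝ) / 2) ^ n) atTop (𝓝 0) :=
      tendsto_pow_atTop_nhds_zero_of_lt_one (by norm_num) (by norm_num)
    have h3 : Tendsto (fun k : ℕ => 2 * k + 1) atTop atTop :=
      tendsto_atTop_mono (fun k => by simp only [id]; omega) tendsto_id
    have h2 := (ENNReal.continuous_ofReal.tendsto 0).comp (h1.comp h3)
    rw [ENNReal.ofReal_zero] at h2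
    exact h2
  have h1 := Measure.hausdorffMeasure_le_liminf_sum d {x : ℝ | x ∈ Ico (0 : ℝ) 1 ∧ F x = y}
    (l := atTop) (ι := fun k : ℕ => {j // j ∈ J (2 * k + 1) y})
    (fun k => ENNReal.ofReal (((1 : ℝ) / 2) ^ (2 * k + 1))) h0
    (fun k j => I (2 * k + 1) j.1)
    (Eventually.of_forall fun k j => ediam_I_le _ _)
    (Eventually.of_forall fun k x hx => by
      have := level_subset (2 * k + 1) y hx
      rw [mem_iUnion₂] at this
      obtain ⟨j, hj, hx'⟩ := this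
      exact mem_iUnion.mpr ⟨⟨j, hj⟩, hx'⟩)
  have hr0 : (0 : ℝ) ≤ (1 / 2) ^ d := by positivity
  have hr1 : ((1 : ℝ) / 2) ^ d < 1 := Real.rpow_lt_one (by norm_num) (by norm_num) hd
  have h2 : ∀ k : ℕ, ∑ j : {j // j ∈ J (2 * k + 1) y}, Metric.ediam (I (2 * k + 1) j.1) ^ d ≤
      ENNReal.ofReal (((2 * ((2 * k + 1 : ℕ) : ℝ) + 4) ^ 2) * ((1 / 2) ^ d) ^ (2 * k + 1)) := by
    intro k
    calc ∑ j : {j // j ∈ J (2 * k + 1) y}, Metric.ediam (I (2 * k + 1) j.1) ^ d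
        ≤ ∑ _j : {j // j ∈ J (2 * k + 1) y}, ENNReal.ofReal (((1 / 2) ^ d) ^ (2 * k + 1)) := by
          refine Finset.sum_le_sum fun j _ => ?_
          have e : (((1 : ℝ) / 2) ^ d) ^ (2 * k + 1) = ((1 / 2) ^ (2 * k + 1)) ^ d := by
            rw [← Real.rpow_natCast, ← Real.rpow_natCast, ← Real.rpow_mul (by norm_num),
              ← Real.rpow_mul (by norm_num), mul_comm]
          rw [e, ← ENNReal.ofReal_rpow_of_nonneg (by positivity) hd.le]
          exact ENNReal.rpow_le_rpow (ediam_I_le _ _) hd.le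
      _ = ENNReal.ofReal (((J (2 * k + 1) y).card : ℝ) * ((1 / 2) ^ d) ^ (2 * k + 1)) := by
          rw [Finset.sum_const, Finset.card_univ, Fintype.card_coe, nsmul_eq_mul,
            ENNReal.ofReal_mul (by positivity), ENNReal.ofReal_natCast]
      _ ≤ _ := by
          refine ENNReal.ofReal_le_ofReal ?_
          refine mul_le_mul_of_nonneg_right ?_ (by positivity)
          have := card_J (odd_all k) y
          exact_mod_cast this
  have h3 : Tendsto (fun k : ℕ => ENNReal.ofReal (((2 * ((2 * k + 1 : ℕ) : ℝ) + 4) ^ 2)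
      * ((1 / 2) ^ d) ^ (2 * k + 1))) atTop (𝓝 0) := by
    have := (ENNReal.continuous_ofReal.tendsto 0).comp (tendsto_aux hr0 hr1)
    rw [ENNReal.ofReal_zero] at this
    exact this
  refine le_antisymm (h1.trans ?_) bot_le
  calc liminf (fun k : ℕ => ∑ j : {j // j ∈ J (2 * k + 1) y},
        Metric.ediam (I (2 * k + 1) j.1) ^ d) atTop
      ≤ liminf (fun k : ℕ => ENNReal.ofReal (((2 * ((2 * k + 1 : ℕ) : ℝ) + 4) ^ 2)
        * ((1 / 2) ^ d) ^ (2 * k + 1))) atTop :=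
        liminf_le_liminf (Eventually.of_forall h2)
    _ = 0 := h3.liminf_eq

lemma dim_zero (y : ℝ) : dimH {x : ℝ | x ∈ Icc (0 : ℝ) 1 ∧ F x = y} = 0 := by
  have hsub : {x : ℝ | x ∈ Icc (0 : ℝ) 1 ∧ F x = y} ⊆
      {x : ℝ | x ∈ Ico (0 : ℝ) 1 ∧ F x = y} ∪ {1} := by
    rintro x ⟨⟨h0, h1⟩, h2⟩
    rcases h1.lt_or_eq with h | h
    · left; exact ⟨⟨h0, h⟩, h2⟩
    · right; exact h
  have h1 : dimH {x : ℝ | x ∈ Ico (0 : ℝ) 1 ∧ F x = y} = 0 := by
    by_contra hne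
    have hpos : 0 < dimH {x : ℝ | x ∈ Ico (0 : ℝ) 1 ∧ F x = y} := pos_iff_ne_zero.2 hne
    obtain ⟨d, hd0, hd1⟩ := ENNReal.lt_iff_exists_nnreal_btwn.1 hpos
    have hd : (0 : ℝ) < d := by exact_mod_cast hd0
    have h2 : dimH {x : ℝ | x ∈ Ico (0 : ℝ) 1 ∧ F x = y} ≤ d := by
      apply dimH_le_of_hausdorffMeasure_ne_top
      rw [haus_zero y hd]
      exact ENNReal.zero_ne_top
    exact absurd hd1 (not_lt.2 h2)
  have h2 := dimH_mono hsub
  rw [dimH_union, h1, dimH_singleton, max_self] at h2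
  exact le_antisymm h2 bot_le

end Pool.Agent.H649K
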